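import Mathlib

/-!
# Total domination in two-factorizations of `K(s,s)`

`MP_69ced1_co`, Q1, asks whether `γ_t(G₁) γ_t(G₂) ≤ 8 s` whenever `G₁ ⊕ G₂ = K(s,s)` and neither
`G₁` nor `G₂` has an isolated vertex.  This fails for every `s ≥ 24`: the maximum of the product is
at least `⌊(s + 4)² / 4⌋`, so it grows quadratically.

Construction.  Let `2 ≤ m ≤ s`.  In `G₁` the right vertex `j < m` is joined to all left vertices
`i` with `i % m ≠ j`, and the right vertex `j ≥ m` is joined only to the left vertex `j - m`.  A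
total dominating set of `G₁` contains the `s - m` left vertices `0, ..., s - m - 1` and at least two
right vertices; a total dominating set of `G₂` contains a left vertex of every residue modulo `m`
and at least two right vertices.
-/

set_option autoImplicit false

namespace Pool.Agent.Results.MP_69ced1_co.QuadraticProduct

/-- `S` is a total dominating set of `G`: every vertex (also those in `S`) has a neighbour
in `S`. -/
def IsTotalDominating {V : Type} (G : SimpleGraph V) (S : Finset V) : Prop :=
  ∀ v : V, ∃ w ∈ S, G.Adj v w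

/-- The total domination number: the least size of a total dominating set. -/
noncomputable def gammaT {V : Type} (G : SimpleGraph V) : ℕ :=
  sInf {k : ℕ | ∃ S : Finset V, IsTotalDominating G S ∧ S.card = k}

/-- `G` has no isolated vertex. -/
def NoIsolated {V : Type} (G : SimpleGraph V) : Prop := ∀ v : V, ∃ w : V, G.Adj v w

/-- `G₁ ⊕ G₂ = K(s,s)`: the edge sets of `G₁` and `G₂` partition the edge set of the complete
bipartite graph with both parts of size `s`. -/
def IsFactorization (s : ℕ) (G₁ G₂ : SimpleGraph (Fin s ⊕ Fin s)) : Prop :=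
  Disjoint G₁.edgeSet G₂.edgeSet ∧
    G₁.edgeSet ∪ G₂.edgeSet = (completeBipartiteGraph (Fin s) (Fin s)).edgeSet

/-- the bipartite relation of `G₁` -/
def rel (s m : ℕ) (i j : Fin s) : Prop :=
  (j.val < m ∧ i.val % m ≠ j.val) ∨ (m ≤ j.val ∧ i.val + m = j.val)

/-- the bipartite graph of a relation -/
def bip {s : ℕ} (r : Fin s → Fin s → Prop) : SimpleGraph (Fin s ⊕ Fin s) where
  Adj := fun a b => match a, b with
    | Sum.inl i, Sum.inr j => r i j
    | Sum.inr j, Sum.inl i => r i j
    | _, _ => False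
  symm := ⟨by
    rintro (i | i) (j | j) h
    · exact h
    · exact h
    · exact h
    · exact h⟩
  loopless := ⟨by
    rintro (i | i) h
    · exact h
    · exact h⟩

lemma bip_lr {s : ℕ} {r : Fin s → Fin s → Prop} {i j : Fin s} :
    (bip r).Adj (Sum.inl i) (Sum.inr j) ↔ r i j := Iff.rfl

lemma bip_rl {s : ℕ} {r : Fin s → Fin s → Prop} {i j : Fin s} :
    (bip r).Adj (Sum.inr j) (Sum.inl i) ↔ r i j := Iff.rfl

lemma bip_ll {s : ℕ} {r : Fin s → Fin s → Prop} {i j : Fin s} :
    ¬ (bip r).Adj (Sum.inl i) (Sum.inl j) := fun h => h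

lemma bip_rr {s : ℕ} {r : Fin s → Fin s → Prop} {i j : Fin s} :
    ¬ (bip r).Adj (Sum.inr i) (Sum.inr j) := fun h => h

lemma factorization {s : ℕ} (r : Fin s → Fin s → Prop) :
    IsFactorization s (bip r) (bip fun i j => ¬ r i j) := by
  constructor
  · rw [Set.disjoint_left]
    intro e
    induction e with
    | h a b =>
      simp only [SimpleGraph.mem_edgeSet]
      intro h1 h2
      rcases a with i | i <;> rcases b with j | j
      · exact h1
      · exact h2 h1
      · exact h2 h1
      · exact h1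
  · ext e
    induction e with
    | h a b =>
      simp only [Set.mem_union, SimpleGraph.mem_edgeSet]
      rcases a with i | i <;> rcases b with j | j
      · simp [bip_ll]
      · simp [bip_lr, Classical.em]
      · simp [bip_rl, Classical.em]
      · simp [bip_rr]

/-- general lower bound -/
lemma le_gammaT {V : Type} [Fintype V] {G : SimpleGraph V} (h0 : NoIsolated G) {k : ℕ}
    (h : ∀ S : Finset V, IsTotalDominating G S → k ≤ S.card) : k ≤ gammaT G := by
  apply le_csInf
  · exact ⟨_, Finset.univ, fun v => (h0 v).imp fun w hw => ⟨Finset.mem_univ _, hw⟩, rfl⟩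
  · rintro _ ⟨S, hS, rfl⟩
    exact h S hS

/-- If every `j` is missed by some `i`, two right vertices are needed. -/
lemma two_le {s : ℕ} (hs : 0 < s) {r : Fin s → Fin s → Prop}
    (hr : ∀ j, ∃ i, ¬ r i j) {S : Finset (Fin s ⊕ Fin s)} (hS : IsTotalDominating (bip r) S) :
    2 ≤ S.toRight.card := by
  by_contra hlt
  push Not at hlt
  have hne : S.toRight.Nonempty := by
    obtain ⟨w, hw, hadj⟩ := hS (Sum.inl ⟨0, hs⟩)
    rcases w with i | j
    · exact absurd hadj bip_ll
    · exact ⟨j, by simpa using hw⟩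
  have hc : S.toRight.card = 1 := by
    have := hne.card_pos
    omega
  obtain ⟨j, hj⟩ := Finset.card_eq_one.mp hc
  obtain ⟨i, hi⟩ := hr j
  obtain ⟨w, hw, hadj⟩ := hS (Sum.inl i)
  rcases w with i' | j'
  · exact absurd hadj bip_ll
  · have : j' ∈ S.toRight := by simpa using hw
    rw [hj, Finset.mem_singleton] at this
    subst this
    exact hi hadj

theorem construction (s m : ℕ) (hm : 2 ≤ m) (hms : m ≤ s) :
    ∃ G₁ G₂ : SimpleGraph (Fin s ⊕ Fin s), IsFactorization s G₁ G₂ ∧
      NoIsolated G₁ ∧ NoIsolated G₂ ∧ s - m + 2 ≤ gammaT G₁ ∧ m + 2 ≤ gammaT G₂ := by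
  have hm0 : 0 < m := by omega
  have key : ∀ j : Fin s, (∃ i, rel s m i j) ∧ (∃ i, ¬ rel s m i j) := by
    intro j
    rcases lt_or_ge j.val m with hj | hj
    · constructor
      · rcases Nat.eq_zero_or_pos j.val with h0 | h0
        · refine ⟨⟨1, by omega⟩, Or.inl ⟨hj, ?_⟩⟩
          rw [Nat.mod_eq_of_lt (by simp; omega)]
          simp [h0]
        · refine ⟨⟨0, by omega⟩, Or.inl ⟨hj, ?_⟩⟩
          rw [Nat.mod_eq_of_lt (by simpa using hm0)]
          simp; omega
      · refine ⟨j, ?_⟩
        rintro (⟨-, h⟩ | ⟨h, -⟩)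
        · exact h (Nat.mod_eq_of_lt hj)
        · omega
    · constructor
      · exact ⟨⟨j.val - m, by omega⟩, Or.inr ⟨hj, by simp; omega⟩⟩
      · refine ⟨j, ?_⟩
        rintro (⟨h, -⟩ | ⟨-, h⟩)
        · omega
        · omega
  have hni1 : NoIsolated (bip (rel s m)) := by
    rintro (i | j)
    · by_cases h : i.val % m = 0
      · exact ⟨Sum.inr ⟨1, by omega⟩, Or.inl ⟨by simp; omega, by simp [h]⟩⟩
      · exact ⟨Sum.inr ⟨0, by omega⟩, Or.inl ⟨by simpa using hm0, by simpa using h⟩⟩
    · obtain ⟨i, hi⟩ := (key j).1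
      exact ⟨Sum.inl i, hi⟩
  have hni2 : NoIsolated (bip fun i j => ¬ rel s m i j) := by
    rintro (i | j)
    · refine ⟨Sum.inr ⟨i.val % m, by
        have := Nat.mod_lt i.val hm0
        omega⟩, ?_⟩
      show ¬ rel s m i _
      have := Nat.mod_lt i.val hm0
      rintro (⟨-, h⟩ | ⟨h, -⟩)
      · exact h rfl
      · simp at h; omega
    · obtain ⟨i, hi⟩ := (key j).2
      exact ⟨Sum.inl i, hi⟩
  refine ⟨bip (rel s m), bip fun i j => ¬ rel s m i j, factorization _, hni1, hni2, ?_, ?_⟩
  · apply le_gammaT hni1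
    intro S hS
    have h2 := two_le (by omega) (fun j => (key j).2) hS
    have h3 : s - m ≤ S.toLeft.card := by
      have : (Finset.univ : Finset (Fin (s - m))).image
          (fun i => (⟨i.val, by omega⟩ : Fin s)) ⊆ S.toLeft := by
        intro x hx
        obtain ⟨i, -, rfl⟩ := Finset.mem_image.mp hx
        obtain ⟨w, hw, hadj⟩ := hS (Sum.inr ⟨i.val + m, by omega⟩)
        rcases w with i' | j'
        · have h4 : rel s m i' ⟨i.val + m, by omega⟩ := hadj
          rcases h4 with ⟨h, -⟩ | ⟨-, h⟩
          · simp at h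
          · simp only at h
            have : i' = ⟨i.val, by omega⟩ := by
              apply Fin.ext
              simp only
              omega
            rw [← this]
            simpa using hw
        · exact absurd hadj bip_rr
      have h5 := Finset.card_le_card this
      rwa [Finset.card_image_of_injective, Finset.card_univ, Fintype.card_fin] at h5
      intro a b hab
      simp only [Fin.mk.injEq] at hab
      exact Fin.ext hab
    have h4 := S.card_toLeft_add_card_toRight
    omega
  · apply le_gammaT hni2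
    intro S hS
    have h2 := two_le (by omega) (fun j => by
      obtain ⟨i, hi⟩ := (key j).1
      exact ⟨i, not_not.mpr hi⟩) hS
    have h3 : m ≤ S.toLeft.card := by
      have h5 : Finset.range m ⊆ S.toLeft.image (fun i => i.val % m) := by
        intro j hj
        rw [Finset.mem_range] at hj
        obtain ⟨w, hw, hadj⟩ := hS (Sum.inr ⟨j, by omega⟩)
        rcases w with i' | j'
        · have h4 : ¬ rel s m i' ⟨j, by omega⟩ := hadj
          rw [Finset.mem_image]
          refine ⟨i', by simpa using hw, ?_⟩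
          by_contra hne
          exact h4 (Or.inl ⟨hj, hne⟩)
        · exact absurd hadj bip_rr
      have h6 := Finset.card_le_card h5
      rw [Finset.card_range] at h6
      exact h6.trans Finset.card_image_le
    have h4 := S.card_toLeft_add_card_toRight
    omega

/-- **The bound `8 s` fails for every `s ≥ 24`**, and the maximum of `γ_t(G₁) γ_t(G₂)` over all
factorizations of `K(s,s)` into two graphs without isolated vertices is at least
`⌊(s + 4)² / 4⌋` for every `s ≥ 4`. -/
theorem result :
    (∀ s : ℕ, 24 ≤ s → ∃ G₁ G₂ : SimpleGraph (Fin s ⊕ Fin s), IsFactorization s G₁ G₂ ∧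
      NoIsolated G₁ ∧ NoIsolated G₂ ∧ 8 * s < gammaT G₁ * gammaT G₂) ∧
    (∀ s : ℕ, 4 ≤ s → ∃ G₁ G₂ : SimpleGraph (Fin s ⊕ Fin s), IsFactorization s G₁ G₂ ∧
      NoIsolated G₁ ∧ NoIsolated G₂ ∧ (s + 4) ^ 2 / 4 ≤ gammaT G₁ * gammaT G₂) := by
  have main : ∀ s : ℕ, 4 ≤ s → ∃ G₁ G₂ : SimpleGraph (Fin s ⊕ Fin s), IsFactorization s G₁ G₂ ∧
      NoIsolated G₁ ∧ NoIsolated G₂ ∧ (s + 4) ^ 2 / 4 ≤ gammaT G₁ * gammaT G₂ := by
    intro s hs
    obtain ⟨G₁, G₂, h1, h2, h3, h4, h5⟩ := construction s (s / 2) (by omega) (by omega)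
    refine ⟨G₁, G₂, h1, h2, h3, le_trans ?_ (Nat.mul_le_mul h4 h5)⟩
    obtain ⟨k, hk⟩ := Nat.even_or_odd' s
    rcases hk with rfl | rfl
    · have e1 : 2 * k / 2 = k := by omega
      have e2 : 2 * k - k + 2 = k + 2 := by omega
      rw [e1, e2]
      apply Nat.div_le_of_le_mul
      nlinarith
    · have e1 : (2 * k + 1) / 2 = k := by omega
      have e2 : 2 * k + 1 - k + 2 = k + 3 := by omega
      rw [e1, e2]
      rw [Nat.div_le_iff_le_mul_add_pred (by norm_num)]
      nlinarith
  refine ⟨fun s hs => ?_, main⟩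
  obtain ⟨G₁, G₂, h1, h2, h3, h4⟩ := main s (by omega)
  refine ⟨G₁, G₂, h1, h2, h3, lt_of_lt_of_le ?_ h4⟩
  have h5 : 4 * (8 * s + 1) ≤ (s + 4) ^ 2 := by nlinarith
  have h6 : 8 * s + 1 ≤ (s + 4) ^ 2 / 4 := by
    rw [Nat.le_div_iff_mul_le (by norm_num)]
    linarith
  omega

end Pool.Agent.Results.MP_69ced1_co.QuadraticProduct
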